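import Mathlib
import Pool.Agent.V1175.MS.SelfPow

/-!
# The sequences `1/(k+1)^(k+1)` and `1/((k+1)^(k+1) k!)` are multiplier sequences
-/

set_option autoImplicit false

namespace Pool.Agent.Results.MP_38d282_an.SelfPower

open Polynomial

/-- The polynomial `∑ γ_k a_k x^k` attached to `p = ∑ a_k x^k`. -/
noncomputable def diag (γ : ℕ → ℝ) (p : ℝ[X]) : ℝ[X] :=
  ∑ k ∈ Finset.range (p.natDegree + 1), C (γ k * p.coeff k) * X ^ k

/-- All complex zeros of `p` are real. -/
def OnlyRealZeros (p : ℝ[X]) : Prop := ∀ z : ℂ, aeval z p = 0 → z.im = 0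

/-- `γ` is a multiplier sequence: if all the zeros of `p = ∑ a_k x^k` are real, then all the
zeros of `∑ γ_k a_k x^k` are real. -/
def IsMultiplierSequence (γ : ℕ → ℝ) : Prop :=
  ∀ p : ℝ[X], OnlyRealZeros p → OnlyRealZeros (diag γ p)

lemma of_mult (γ : ℕ → ℝ) (hpos : ∀ k, 0 < γ k) (h : Pool.Agent.V1175.MS.Mult γ) :
    IsMultiplierSequence γ := by
  intro p hp
  have hp0 : p ≠ 0 := by
    rintro rfl
    have := hp Complex.I (by simp)
    simp at this
  rcases h p.natDegree p (Or.inr hp) le_rfl with h | h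
  · exfalso
    have h1 := congrArg (fun q => q.coeff p.natDegree) h
    simp only [coeff_zero] at h1
    rw [Pool.Agent.V1175.MS.coeff_Tn, if_pos le_rfl] at h1
    have h2 : p.coeff p.natDegree ≠ 0 := by
      rw [coeff_natDegree]; exact leadingCoeff_ne_zero.mpr hp0
    rcases mul_eq_zero.mp h1 with h3 | h3
    · exact (hpos _).ne' h3
    · exact h2 h3
  · exact h

/-- The sequence `1/((k+1)^(k+1) k!)` is a multiplier sequence; so is `1/(k+1)^(k+1)`. -/
theorem result :
    IsMultiplierSequence (fun k => 1 / (((k : ℝ) + 1) ^ (k + 1) * (k.factorial : ℝ))) ∧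
    IsMultiplierSequence (fun k => 1 / ((k : ℝ) + 1) ^ (k + 1)) := by
  refine ⟨of_mult _ (fun k => by positivity) ?_,
    of_mult _ (fun k => by positivity) Pool.Agent.V1175.MS.selfpow_mult⟩
  have h := Pool.Agent.V1175.MS.selfpow_mult.mul
    (Pool.Agent.V1175.MS.lag_mult (α := 0) (by norm_num))
  refine (congrArg Pool.Agent.V1175.MS.Mult ?_).mp h
  funext k
  rw [Pool.Agent.V1175.MS.lag_zero_eq]
  field_simp

end Pool.Agent.Results.MP_38d282_an.SelfPower
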